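import Pool.Agent.Helper93.KS.St

/-!
# Project KS (MP_77e955_nt), module FS1: choice of parameters, dimension one
-/

set_option autoImplicit false

noncomputable section

namespace Pool.Agent.Helper13.KS

open Finset Filter Topology Pool.Agent.Helper93.KS
open Pool.Agent.Helper15.AB (ee Kl StDB StMT)
open Pool.Agent.Helper9.TW (gm Qs fm StMER StC9)
open Pool.Agent.Helper18.TR (StLevel)
open Pool.Agent.Helper93.KP (gk vk tk rn gn TK qk StC8P StVLP StRTS StWEI)

/-- the relative errors in the cells -/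
private def wf (u j : ℕ) : ℝ :=
  if j < 21 * u then 287 / 10000 else
  if j < 29 * u then 687 / 10000 else
  if j < 35 * u then 1274 / 10000 else
  if j < 41 * u then 2343 / 10000 else
  if j < 50 * u then 4451 / 10000 else
  if j < 59 * u then 7956 / 10000 else
  if j < 68 * u then 12791 / 10000 else 24851 / 10000

private lemma wf_nonneg (u j : ℕ) : 0 ≤ wf u j := by
  unfold wf
  split_ifs <;> norm_num

/-- one cell -/
private lemma cell (u a b : ℕ) (k c A : ℝ) (hk : 0 ≤ k) (hc : 0 ≤ c)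
    (hkf : ∀ j ∈ Ico (a * u) (b * u), (kf1 u j : ℝ) = k)
    (hw : ∀ j ∈ Ico (a * u) (b * u), wf u j = c)
    (hA : ∑ j ∈ Ico (a * u) (b * u), gm j * (1 - (j : ℝ) / ((78 : ℕ) * u)) ≤ A) :
    ∑ j ∈ Ico (a * u) (b * u), (kf1 u j : ℝ) * gm j * (1 - (j : ℝ) / ((78 : ℕ) * u)) * (1 + wf u j) ≤
      k * (1 + c) * A := by
  have h : ∑ j ∈ Ico (a * u) (b * u), (kf1 u j : ℝ) * gm j * (1 - (j : ℝ) / ((78 : ℕ) * u)) * (1 + wf u j) =
      k * (1 + c) * ∑ j ∈ Ico (a * u) (b * u), gm j * (1 - (j : ℝ) / ((78 : ℕ) * u)) := by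
    rw [Finset.mul_sum]
    refine Finset.sum_congr rfl fun j hj => ?_
    rw [hkf j hj, hw j hj]
    ring
  rw [h]
  exact mul_le_mul_of_nonneg_left hA (by positivity)

private lemma split3 (f : ℕ → ℝ) (a b c : ℕ) (h1 : a ≤ b) (h2 : b ≤ c) :
    ∑ j ∈ Ico a c, f j = ∑ j ∈ Ico a b, f j + ∑ j ∈ Ico b c, f j :=
  (Finset.sum_Ico_consecutive f h1 h2).symm

theorem hFS1 (hB : StBXQ) (hT : StT1) (hC : StCEL) : StFS1 := by
  classical
  intro θ hθ hθ1
  have hε : (0 : ℝ) < 1 / 10000 := by norm_num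
  obtain ⟨v1, c1⟩ := hC 19 21 78 (by norm_num) (by norm_num) (by norm_num) (1 / 10000) hε
  obtain ⟨v2, c2⟩ := hC 21 29 78 (by norm_num) (by norm_num) (by norm_num) (1 / 10000) hε
  obtain ⟨v3, c3⟩ := hC 29 35 78 (by norm_num) (by norm_num) (by norm_num) (1 / 10000) hε
  obtain ⟨v4, c4⟩ := hC 35 41 78 (by norm_num) (by norm_num) (by norm_num) (1 / 10000) hε
  obtain ⟨v5, c5⟩ := hC 41 50 78 (by norm_num) (by norm_num) (by norm_num) (1 / 10000) hε
  obtain ⟨v6, c6⟩ := hC 50 59 78 (by norm_num) (by norm_num) (by norm_num) (1 / 10000) hε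
  obtain ⟨v7, c7⟩ := hC 59 68 78 (by norm_num) (by norm_num) (by norm_num) (1 / 10000) hε
  obtain ⟨v8, c8⟩ := hC 68 78 78 (by norm_num) (by norm_num) (by norm_num) (1 / 10000) hε
  set S : ℕ := ⌈(3 / 2 : ℝ) / θ⌉₊ with hS
  have hS1 : (3 / 2 : ℝ) / θ ≤ S := Nat.le_ceil _
  have hS2 : (S : ℝ) < (3 / 2 : ℝ) / θ + 1 := Nat.ceil_lt_add_one (by positivity)
  obtain ⟨t0, t0', t1, t2, t3, t4, t5, t6, t7, t8⟩ := hT S
  obtain ⟨j0a, k0⟩ := t0 (1 / 10000) hε
  obtain ⟨j0b, k0'⟩ := t0' (1 / 10000) hε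
  obtain ⟨j1, k1⟩ := t1 (1 / 10000) hε
  obtain ⟨j2, k2⟩ := t2 (1 / 10000) hε
  obtain ⟨j3, k3⟩ := t3 (1 / 10000) hε
  obtain ⟨j4, k4⟩ := t4 (1 / 10000) hε
  obtain ⟨j5, k5⟩ := t5 (1 / 10000) hε
  obtain ⟨j6, k6⟩ := t6 (1 / 10000) hε
  obtain ⟨j7, k7⟩ := t7 (1 / 10000) hε
  obtain ⟨j8, k8⟩ := t8 (1 / 10000) hε
  set js : ℕ := j0a + j0b + j1 + j2 + j3 + j4 + j5 + j6 + j7 + j8 + 50 with hjs
  set u : ℕ := v1 + v2 + v3 + v4 + v5 + v6 + v7 + v8 + ⌈(js : ℝ) / θ⌉₊ with hu
  have hu1 : (js : ℝ) / θ ≤ u := by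
    have := Nat.le_ceil ((js : ℝ) / θ)
    have h : ((⌈(js : ℝ) / θ⌉₊ : ℕ) : ℝ) ≤ u := by
      exact_mod_cast Nat.le_add_left _ _
    linarith
  have hjsu : (js : ℝ) ≤ u * θ := by
    rw [div_le_iff₀ hθ] at hu1
    exact hu1
  have hjs2 : (50 : ℝ) ≤ js := by
    exact_mod_cast (by omega : 50 ≤ js)
  have hupos : (0 : ℝ) < u := by
    by_contra hcon
    push Not at hcon
    have : (u : ℝ) * θ ≤ 0 := mul_nonpos_of_nonpos_of_nonneg hcon hθ.le
    linarith
  have hu1' : 1 ≤ u := by
    have : 0 < u := by exact_mod_cast hupos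
    omega
  set j0 : ℕ := ⌊100 * (u : ℝ) * θ⌋₊ with hj0
  have hj0le : (j0 : ℝ) ≤ 100 * u * θ := Nat.floor_le (by positivity)
  have hj0lt : 100 * (u : ℝ) * θ < j0 + 1 := Nat.lt_floor_add_one _
  have hj0js : js ≤ j0 := by
    have h : (js : ℝ) ≤ 100 * u * θ := by
      have : (0 : ℝ) ≤ u * θ := by positivity
      nlinarith
    exact Nat.le_floor h
  have hj0u : (j0 : ℝ) ≤ u := by nlinarith
  have hj0u' : j0 ≤ u := by exact_mod_cast hj0u
  have hω : (0 : ℝ) < 1 / (100 * u) := by positivity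
  have hNm : ((S * j0 : ℕ) : ℝ) * (1 / (100 * u)) ≤ 2 := by
    push_cast
    have h1 : (S : ℝ) * j0 ≤ ((3 / 2 : ℝ) / θ + 1) * (100 * u * θ) :=
      mul_le_mul hS2.le hj0le (Nat.cast_nonneg _) (by positivity)
    have h2 : ((3 / 2 : ℝ) / θ + 1) * (100 * u * θ) = (3 / 2 + θ) * (100 * u) := by
      field_simp
    rw [mul_one_div, div_le_iff₀ (by positivity)]
    rw [h2] at h1
    nlinarith
  have hNS : 99 * u ≤ S * j0 := by
    have h1 : ((3 / 2 : ℝ) / θ) * (100 * u * θ - 1) ≤ (S : ℝ) * j0 := by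
      apply mul_le_mul hS1 (by linarith) _ (Nat.cast_nonneg _)
      have : (1 : ℝ) ≤ 100 * u * θ := by nlinarith
      linarith
    have h2 : ((3 / 2 : ℝ) / θ) * (100 * u * θ - 1) = 150 * u - (3 / 2) / θ := by
      field_simp
      ring
    have h3 : (3 / 2 : ℝ) / θ ≤ u := by
      rw [div_le_iff₀ hθ]
      linarith
    have h4' : ((99 * u : ℕ) : ℝ) ≤ ((S * j0 : ℕ) : ℝ) := by
      push_cast
      linarith
    exact_mod_cast h4'
  have hax := hB 1 (1 / (100 * u)) j0 (S * j0) (by norm_num) hω (by omega) hNm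
  have hj0z : j0 ≤ 19 * u := by omega
  -- the estimate in a cell
  have hcell : ∀ (b : ℕ) (s : ℝ) (j : ℕ), b ≤ 99 → s * 19 ≤ 99 - (b : ℝ) → j < b * u →
      s * ((19 * u : ℕ) : ℝ) ≤ ((99 * u - (j + 1) : ℕ) : ℝ) := by
    intro b s j hb hs hj
    have h1 : (j : ℝ) + 1 ≤ b * u := by exact_mod_cast hj
    have h2 : j + 1 ≤ 99 * u := le_trans hj (Nat.mul_le_mul_right _ hb)
    rw [Nat.cast_sub h2]
    push_cast
    have h3 : s * 19 * u ≤ (99 - (b : ℝ)) * u := mul_le_mul_of_nonneg_right hs hupos.le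
    linarith
  have L0 := k0 j0 (by omega) _ _ hax (19 * u) (99 * u) hj0z hNS (by push_cast; linarith)
  have U0 := k0' j0 (by omega) _ _ hax (19 * u) (99 * u) hj0z hNS (by push_cast; linarith)
  refine ⟨u, j0, hu1', by omega, hj0z, ?_, 33 / 10000 + 1 / 10000, 33 / 10000 + 1 / 10000, wf u,
    by norm_num, by norm_num, wf_nonneg u, L0, U0, ?_, ?_⟩
  · rw [mul_one_div, div_le_iff₀ (by positivity)]
    linarith
  · intro j hj
    rw [Finset.mem_Ico] at hj
    have hN : 99 * u - (j + 1) ≤ S * j0 := le_trans (Nat.sub_le _ _) hNS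
    unfold wf
    split_ifs with h1 h2 h3 h4 h5 h6 h7
    · have := k1 j0 (by omega) _ _ hax (19 * u) (99 * u - (j + 1)) hj0z hN
        (hcell 21 (65 / 16) j (by norm_num) (by norm_num) h1)
      norm_num at this ⊢; exact this
    · have := k2 j0 (by omega) _ _ hax (19 * u) (99 * u - (j + 1)) hj0z hN
        (hcell 29 (58 / 16) j (by norm_num) (by norm_num) h2)
      norm_num at this ⊢; exact this
    · have := k3 j0 (by omega) _ _ hax (19 * u) (99 * u - (j + 1)) hj0z hN
        (hcell 35 (53 / 16) j (by norm_num) (by norm_num) h3)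
      norm_num at this ⊢; exact this
    · have := k4 j0 (by omega) _ _ hax (19 * u) (99 * u - (j + 1)) hj0z hN
        (hcell 41 3 j (by norm_num) (by norm_num) h4)
      norm_num at this ⊢; exact this
    · have := k5 j0 (by omega) _ _ hax (19 * u) (99 * u - (j + 1)) hj0z hN
        (hcell 50 (41 / 16) j (by norm_num) (by norm_num) h5)
      norm_num at this ⊢; exact this
    · have := k6 j0 (by omega) _ _ hax (19 * u) (99 * u - (j + 1)) hj0z hN
        (hcell 59 (33 / 16) j (by norm_num) (by norm_num) h6)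
      norm_num at this ⊢; exact this
    · have := k7 j0 (by omega) _ _ hax (19 * u) (99 * u - (j + 1)) hj0z hN
        (hcell 68 (26 / 16) j (by norm_num) (by norm_num) h7)
      norm_num at this ⊢; exact this
    · have := k8 j0 (by omega) _ _ hax (19 * u) (99 * u - (j + 1)) hj0z hN
        (hcell 78 (17 / 16) j (by norm_num) (by norm_num) hj.2)
      norm_num at this ⊢; exact this
  · -- the sum
    have hk2 : ∀ j : ℕ, ¬ ((21 * u ≤ j ∧ j < 29 * u) ∨ (41 * u ≤ j ∧ j < 59 * u)) → (kf1 u j : ℝ) = 2 := by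
      intro j h
      unfold kf1
      rw [if_neg h]
      norm_num
    have hk1 : ∀ j : ℕ, ((21 * u ≤ j ∧ j < 29 * u) ∨ (41 * u ≤ j ∧ j < 59 * u)) → (kf1 u j : ℝ) = 1 := by
      intro j h
      unfold kf1
      rw [if_pos h]
      norm_num
    have q1 := cell u 19 21 2 (287 / 10000) _ (by norm_num) (by norm_num)
      (fun j hj => hk2 j (by rw [Finset.mem_Ico] at hj; omega))
      (fun j hj => by
        rw [Finset.mem_Ico] at hj; unfold wf
        rw [if_pos (by omega)])
      (c1 u (by omega) hu1')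
    have q2 := cell u 21 29 1 (687 / 10000) _ (by norm_num) (by norm_num)
      (fun j hj => hk1 j (by rw [Finset.mem_Ico] at hj; omega))
      (fun j hj => by
        rw [Finset.mem_Ico] at hj; unfold wf
        rw [if_neg (by omega), if_pos (by omega)])
      (c2 u (by omega) hu1')
    have q3 := cell u 29 35 2 (1274 / 10000) _ (by norm_num) (by norm_num)
      (fun j hj => hk2 j (by rw [Finset.mem_Ico] at hj; omega))
      (fun j hj => by
        rw [Finset.mem_Ico] at hj; unfold wf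
        rw [if_neg (by omega), if_neg (by omega), if_pos (by omega)])
      (c3 u (by omega) hu1')
    have q4 := cell u 35 41 2 (2343 / 10000) _ (by norm_num) (by norm_num)
      (fun j hj => hk2 j (by rw [Finset.mem_Ico] at hj; omega))
      (fun j hj => by
        rw [Finset.mem_Ico] at hj; unfold wf
        rw [if_neg (by omega), if_neg (by omega), if_neg (by omega), if_pos (by omega)])
      (c4 u (by omega) hu1')
    have q5 := cell u 41 50 1 (4451 / 10000) _ (by norm_num) (by norm_num)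
      (fun j hj => hk1 j (by rw [Finset.mem_Ico] at hj; omega))
      (fun j hj => by
        rw [Finset.mem_Ico] at hj; unfold wf
        rw [if_neg (by omega), if_neg (by omega), if_neg (by omega), if_neg (by omega), if_pos (by omega)])
      (c5 u (by omega) hu1')
    have q6 := cell u 50 59 1 (7956 / 10000) _ (by norm_num) (by norm_num)
      (fun j hj => hk1 j (by rw [Finset.mem_Ico] at hj; omega))
      (fun j hj => by
        rw [Finset.mem_Ico] at hj; unfold wf
        rw [if_neg (by omega), if_neg (by omega), if_neg (by omega), if_neg (by omega), if_neg (by omega),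
          if_pos (by omega)])
      (c6 u (by omega) hu1')
    have q7 := cell u 59 68 2 (12791 / 10000) _ (by norm_num) (by norm_num)
      (fun j hj => hk2 j (by rw [Finset.mem_Ico] at hj; omega))
      (fun j hj => by
        rw [Finset.mem_Ico] at hj; unfold wf
        rw [if_neg (by omega), if_neg (by omega), if_neg (by omega), if_neg (by omega), if_neg (by omega),
          if_neg (by omega), if_pos (by omega)])
      (c7 u (by omega) hu1')
    have q8 := cell u 68 78 2 (24851 / 10000) _ (by norm_num) (by norm_num)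
      (fun j hj => hk2 j (by rw [Finset.mem_Ico] at hj; omega))
      (fun j hj => by
        rw [Finset.mem_Ico] at hj; unfold wf
        rw [if_neg (by omega), if_neg (by omega), if_neg (by omega), if_neg (by omega), if_neg (by omega),
          if_neg (by omega), if_neg (by omega)])
      (c8 u (by omega) hu1')
    have hsum : ∑ j ∈ Ico (19 * u) (78 * u), (kf1 u j : ℝ) * gm j * (1 - (j : ℝ) / ((78 : ℕ) * u)) *
        (1 + wf u j) ≤ 126 / 100 := by
      rw [split3 _ (19 * u) (21 * u) (78 * u) (by omega) (by omega),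
        split3 _ (21 * u) (29 * u) (78 * u) (by omega) (by omega),
        split3 _ (29 * u) (35 * u) (78 * u) (by omega) (by omega),
        split3 _ (35 * u) (41 * u) (78 * u) (by omega) (by omega),
        split3 _ (41 * u) (50 * u) (78 * u) (by omega) (by omega),
        split3 _ (50 * u) (59 * u) (78 * u) (by omega) (by omega),
        split3 _ (59 * u) (68 * u) (78 * u) (by omega) (by omega)]
      norm_num at q1 q2 q3 q4 q5 q6 q7 q8 ⊢
      linarith
    linarith

end Pool.Agent.Helper13.KS
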